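import Pool.Agent.H598.HK.Comb
import Pool.Agent.H598.HK.Core
import Pool.Agent.H598.HK.Asymp

/-!
# Admissible triples with a small `H (abc)`, by the pigeonhole principle

`H (n) = γ (n) / (log γ (n)) ^ ω (n)`. For every `K < 2 + 4 log (3/2) = 3.6218…` there are
infinitely many admissible triples with `c > H exp (K log H / log log H)`,
`H = max (H (abc), e ^ e)`. They are given by `c = ∏ (p ∈ A) p` and `b = ∏ (p ∈ B) p` for disjoint
sets `A`, `B` of primes `≤ y` such that `log c - log b` is about `2 ^ (-π(y))`; the sets come from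
two sets of primes with nearly equal sums of logarithms which are chosen, among many, with a small
weighted symmetric difference.
-/

set_option autoImplicit false

namespace Pool.Agent.Results.MP_14cf73_nt.SubsetSums

open Filter Topology Pool.Agent.H598.HK

/-- `γ(n)`, the product of the primes dividing `n` -/
def radical (n : ℕ) : ℕ := ∏ p ∈ n.primeFactors, p

/-- `ω(n)`, the number of primes dividing `n` -/
def omega (n : ℕ) : ℕ := n.primeFactors.card

/-- `H(n) = γ(n) / (log γ(n)) ^ ω(n)` -/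
noncomputable def H (n : ℕ) : ℝ := (radical n : ℝ) / Real.log (radical n : ℝ) ^ omega n

/-- `max (H(n), e ^ e)` -/
noncomputable def H' (n : ℕ) : ℝ := max (H n) (Real.exp (Real.exp 1))

theorem radical_pos (n : ℕ) : 0 < radical n :=
  Finset.prod_pos fun _ hr => (Nat.prime_of_mem_primeFactors hr).pos

/-- `- g + k log g` decreases for `g ≥ k` -/
theorem decr {k g G : ℝ} (hk : 0 ≤ k) (hg : 0 < g) (hkg : k ≤ g) (hgG : g ≤ G) :
    -G + k * Real.log G ≤ -g + k * Real.log g := by
  have hG : 0 < G := by linarith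
  have h1 : Real.log G - Real.log g ≤ G / g - 1 := by
    rw [← Real.log_div hG.ne' hg.ne']
    exact Real.log_le_sub_one_of_pos (by positivity)
  have h2 : k * (G / g - 1) ≤ G - g := by
    have h3 : 0 ≤ G / g - 1 := by
      rw [sub_nonneg, one_le_div hg]
      exact hgG
    calc k * (G / g - 1) ≤ g * (G / g - 1) := by gcongr
      _ = G - g := by field_simp
  have h4 := mul_le_mul_of_nonneg_left h1 hk
  linarith

/-- the data of the triple `(r - s, s, r)` -/
theorem estimate {U : Finset ℕ} (hU : ∀ p ∈ U, p.Prime) {r s : ℕ} (hs : 0 < s) (hsr : s < r)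
    (hrs : r * s = ∏ p ∈ U, p) {g D : ℝ} (hD : D = ∑ p ∈ U, Real.log (p : ℝ))
    (hδ : Real.log r - Real.log s ≤ Real.exp (-g)) (hg : 0 ≤ g) (hk : (U.card : ℝ) ≤ D)
    (hD1 : 1 ≤ D) :
    D / 2 ≤ Real.log r ∧ Real.log r ≤ D / 2 + 1 / 2 ∧ g ≤ Real.log r ∧
    0 < H ((r - s) * s * r) ∧
    -D + g + (U.card : ℝ) * Real.log (D + Real.log r - g) ≤
      Real.log r - Real.log (H ((r - s) * s * r)) := by
  have hr : 0 < r := by omega
  have hrR : (0 : ℝ) < r := by exact_mod_cast hr
  have hsR : (0 : ℝ) < s := by exact_mod_cast hs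
  have hDrs : D = Real.log r + Real.log s := by
    rw [← Real.log_mul hrR.ne' hsR.ne']
    have h1 : ((r : ℝ) * s) = ((∏ p ∈ U, p : ℕ) : ℝ) := by rw [← hrs]; push_cast; ring
    rw [h1, hD]
    push_cast
    exact (Real.log_prod fun p hp => by
      have := (hU p hp).pos
      positivity).symm
  have hlog : Real.log s ≤ Real.log r := Real.log_le_log hsR (by exact_mod_cast hsr.le)
  have hexp1 : Real.exp (-g) ≤ 1 := Real.exp_le_one_iff.mpr (by linarith)
  have hsubR : ((r - s : ℕ) : ℝ) = (r : ℝ) - s := by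
    rw [Nat.cast_sub hsr.le]
  have hsub1 : (1 : ℝ) ≤ ((r - s : ℕ) : ℝ) := by
    have : 1 ≤ r - s := by omega
    exact_mod_cast this
  have hsub0 : (0 : ℝ) < ((r - s : ℕ) : ℝ) := by linarith
  have hdiff : ((r - s : ℕ) : ℝ) ≤ r * Real.exp (-g) := by
    have h1 : Real.log ((s : ℝ) / r) ≤ (s : ℝ) / r - 1 :=
      Real.log_le_sub_one_of_pos (by positivity)
    rw [Real.log_div hsR.ne' hrR.ne'] at h1
    have h2 : 1 - (s : ℝ) / r ≤ Real.exp (-g) := by linarith
    calc ((r - s : ℕ) : ℝ) = r * (1 - (s : ℝ) / r) := by rw [hsubR]; field_simp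
      _ ≤ r * Real.exp (-g) := by gcongr
  have hlogdiff : Real.log ((r - s : ℕ) : ℝ) ≤ Real.log r - g := by
    have h1 := Real.log_le_log hsub0 hdiff
    rw [Real.log_mul hrR.ne' (Real.exp_pos _).ne', Real.log_exp] at h1
    linarith
  have hlog0 : 0 ≤ Real.log ((r - s : ℕ) : ℝ) := Real.log_nonneg hsub1
  -- the radical
  set n : ℕ := (r - s) * s * r with hn
  have hn0 : n ≠ 0 := by
    rw [hn]
    have : 0 < r - s := by omega
    positivity
  have hsub : U ⊆ n.primeFactors := by
    intro p hp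
    rw [Nat.mem_primeFactors]
    refine ⟨hU p hp, ?_, hn0⟩
    have h1 : p ∣ r * s := by
      rw [hrs]
      exact Finset.dvd_prod_of_mem _ hp
    have h2 : r * s ∣ n := ⟨r - s, by rw [hn]; ring⟩
    exact h1.trans h2
  have hω : (U.card : ℝ) ≤ (omega n : ℝ) := by
    exact_mod_cast Finset.card_le_card hsub
  have hrlow : r * s ≤ radical n := by
    rw [hrs]
    exact Nat.le_of_dvd (radical_pos n) (Finset.prod_dvd_prod_of_subset _ _ _ hsub)
  have hrup : radical n ≤ n := Nat.le_of_dvd (Nat.pos_of_ne_zero hn0) (Nat.prod_primeFactors_dvd n)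
  have hr0 : (0 : ℝ) < (radical n : ℝ) := by exact_mod_cast radical_pos n
  set γ : ℝ := Real.log (radical n : ℝ) with hγ
  have hγlow : D ≤ γ := by
    rw [hDrs, ← Real.log_mul hrR.ne' hsR.ne']
    apply Real.log_le_log (by positivity)
    exact_mod_cast hrlow
  have hγup : γ ≤ D + Real.log r - g := by
    have h3 : (radical n : ℝ) ≤ ((r - s : ℕ) : ℝ) * s * r := by exact_mod_cast hrup
    have h4 := Real.log_le_log hr0 h3
    rw [Real.log_mul (by positivity) hrR.ne', Real.log_mul hsub0.ne' hsR.ne'] at h4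
    linarith
  have hγ1 : 1 ≤ γ := hD1.trans hγlow
  have hγ0 : 0 < γ := by linarith
  have hlogγ : 0 ≤ Real.log γ := Real.log_nonneg hγ1
  have hHdef : H n = (radical n : ℝ) / γ ^ omega n := rfl
  have hH0 : 0 < H n := by
    rw [hHdef]
    positivity
  refine ⟨by linarith, by linarith, by linarith, hH0, ?_⟩
  have hlogH : Real.log (H n) = γ - (omega n : ℝ) * Real.log γ := by
    rw [hHdef, Real.log_div hr0.ne' (by positivity), Real.log_pow]
  rw [hlogH]
  have h5 : (U.card : ℝ) * Real.log γ ≤ (omega n : ℝ) * Real.log γ := by gcongr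
  have h6 := decr (k := (U.card : ℝ)) (g := γ) (G := D + Real.log r - g) (Nat.cast_nonneg _) hγ0
    (hk.trans hγlow) hγup
  linarith

/-- the sets of primes -/
theorem sets {K : ℝ} (hK : K < 2 + 4 * Real.log (3 / 2)) (Z : ℝ) :
    ∃ r s : ℕ, 0 < s ∧ s < r ∧ Nat.Coprime r s ∧ Z < Real.log r ∧ 0 < H ((r - s) * s * r) ∧
      K * (Real.log r / Real.log (Real.log r)) < Real.log r - Real.log (H ((r - s) * s * r)) := by
  obtain ⟨ε, hε0, hε8, hcore⟩ := core hK
  -- `m` with `(1 + 2 ^ (-m)) (log 2 - 3/8 + ε/4) ≤ log 2 - 3/8 + ε/2`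
  obtain ⟨m, hm⟩ : ∃ m : ℕ, (1 / 2 : ℝ) ^ m < ε / 4 :=
    exists_pow_lt_of_lt_one (by linarith) (by norm_num)
  have hlog2 : 0.6931471803 < Real.log 2 := Real.log_two_gt_d9
  have hlog2' : Real.log 2 < 0.6931471808 := Real.log_two_lt_d9
  have hlog4 : Real.log 4 = 2 * Real.log 2 := by
    rw [show (4 : ℝ) = 2 ^ 2 by norm_num, Real.log_pow]
    norm_num
  have hcoreN := (tendsto_natCast_atTop_atTop (R := ℝ)).eventually hcore
  have hth := Pool.Agent.Cov.PNT.theta_div_tendsto
  have hthN := (tendsto_natCast_atTop_atTop (R := ℝ)).eventually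
    ((hth.eventually (lt_mem_nhds (show (1 / 2 : ℝ) < 1 by norm_num))).and
    (hth.eventually (gt_mem_nhds (show (1 : ℝ) < 2 by norm_num))))
  have hll : ∀ᶠ y : ℝ in atTop, ((m : ℝ) + 3) + Real.log (2 * y) ≤ ε / 2 * (y / Real.log y) := by
    have h1 : Tendsto (fun x : ℝ => Real.log x ^ 2 / x) atTop (𝓝 0) := by
      have := (isLittleO_log_rpow_rpow_atTop (s := 1) 2 one_pos).tendsto_div_nhds_zero
      simpa using this
    filter_upwards [h1.eventually (gt_mem_nhds (show (0 : ℝ) < ε / 4 by linarith)),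
      Real.tendsto_log_atTop.eventually_ge_atTop ((m : ℝ) + 3 + Real.log 2),
      Real.tendsto_log_atTop.eventually_ge_atTop 1, eventually_gt_atTop 1] with y h2 h3 h4 hy
    have hy0 : 0 < y := by linarith
    have hl : 0 < Real.log y := by linarith
    rw [div_lt_iff₀ hy0] at h2
    rw [Real.log_mul (by norm_num) hy0.ne', ← mul_div_assoc, le_div_iff₀ hl]
    nlinarith
  have hYZ : ∀ᶠ y : ℝ in atTop, max 8 (2 * Z) < y / Real.log y := by
    have h1 : Tendsto (fun x : ℝ => Real.log x / x) atTop (𝓝 0) := by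
      have := Real.isLittleO_log_id_atTop.tendsto_div_nhds_zero
      simpa using this
    have hM : 0 < max 8 (2 * Z) := lt_of_lt_of_le (by norm_num) (le_max_left _ _)
    filter_upwards [h1.eventually (gt_mem_nhds (show (0 : ℝ) < 1 / max 8 (2 * Z) by positivity)),
      eventually_gt_atTop 1] with y h2 hy
    have hy0 : 0 < y := by linarith
    have hl : 0 < Real.log y := Real.log_pos hy
    rw [div_lt_div_iff₀ hy0 hM] at h2
    rw [lt_div_iff₀ hl]
    linarith
  have hreal := (tendsto_natCast_atTop_atTop (R := ℝ)).eventually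
    (hll.and (hYZ.and ((Real.tendsto_log_atTop.eventually_ge_atTop 2).and
      (eventually_gt_atTop (1 : ℝ)))))
  obtain ⟨y, hcy, hthy, hpi, hwt, hcb, hry⟩ := (hcoreN.and (hthN.and
    ((pi_bounds (ε := ε / 4) (by linarith)).and ((wt_bound (ε := ε / 2) (by linarith)).and
    ((card_bound hε0).and hreal))))).exists
  obtain ⟨hlly, hYZy, hl2, hy1⟩ := hry
  have hy0 : (0 : ℝ) < y := by linarith
  set l : ℝ := Real.log y with hl
  have hl0 : 0 < l := by linarith
  set Y : ℝ := (y : ℝ) / l with hY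
  have hY0 : 0 < Y := by positivity
  have hY8 : 8 < Y := lt_of_le_of_lt (le_max_left _ _) hYZy
  have hY2 : 2 < Y := by linarith
  have hYZ' : 2 * Z < Y := lt_of_le_of_lt (le_max_right _ _) hYZy
  set θ : ℝ := Chebyshev.theta y with hθ
  have hθlow : (1 / 2) * (y : ℝ) < θ := by
    have := hthy.1
    rwa [lt_div_iff₀ hy0] at this
  have hθup : θ < 2 * (y : ℝ) := by
    have := hthy.2
    rwa [div_lt_iff₀ hy0] at this
  have hθ0 : 0 < θ := by linarith
  set k : ℕ := Nat.primeCounting y with hk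
  have hklow : (1 - ε / 4) * Y ≤ k := hpi.1
  have hkup : (k : ℝ) ≤ (1 + ε / 4) * Y := hpi.2
  have hlog2y0 : 0 ≤ Real.log (2 * (y : ℝ)) := Real.log_nonneg (by linarith)
  have hkm : m + 2 ≤ k := by
    have h1 : ((m : ℝ) + 2) ≤ k := by
      have : ε / 2 * Y ≤ (1 - ε / 4) * Y := by
        apply mul_le_mul_of_nonneg_right _ hY0.le
        linarith
      linarith
    exact_mod_cast h1
  set j : ℕ := k - (m + 2) with hj
  have hjk : (j : ℝ) = k - (m + 2) := by
    rw [hj, Nat.cast_sub hkm]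
    push_cast
    ring
  -- pigeonhole
  set f : Finset ℕ → ℝ := fun T => ∑ p ∈ T, Real.log (p : ℝ) with hf
  have hlogp : ∀ p ∈ Pr y, 0 ≤ Real.log (p : ℝ) := fun p hp =>
    Real.log_nonneg (by exact_mod_cast (mem_Pr.mp hp).2.one_lt.le)
  have hf0 : ∀ T ⊆ Pr y, 0 ≤ f T := fun T hT => Finset.sum_nonneg fun p hp => hlogp p (hT hp)
  have hfθ : ∀ T ⊆ Pr y, f T ≤ θ := by
    intro T hT
    rw [hθ, theta_Pr, Nat.floor_natCast]
    exact Finset.sum_le_sum_of_subset_of_nonneg hT fun p hp _ => hlogp p hp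
  obtain ⟨S, hSP, hScard, hSf⟩ := pigeon (Pr y) f hf0 hθ0 hfθ j m (by
    rw [card_Pr, ← hk]
    omega)
  have hS2 : 2 ≤ S.card := by
    have : 1 ≤ 2 ^ m := Nat.one_le_two_pow
    omega
  obtain ⟨T, hT, T', hT', hne, hsym⟩ := plotkin (wt y) (wt_nonneg y) S hSP hS2
  obtain ⟨r, s, hs, hsr, hcop, hrs, hlogrs⟩ := pair (P := Pr y) (fun p hp => (mem_Pr.mp hp).2)
    (hSP T hT) (hSP T' hT') hne (hSf T hT T' hT')
  set U : Finset ℕ := symmDiff T T' with hU
  have hUP : U ⊆ Pr y := by
    intro p hp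
    rw [hU, Finset.mem_symmDiff] at hp
    rcases hp with ⟨h, -⟩ | ⟨h, -⟩
    · exact hSP T hT h
    · exact hSP T' hT' h
  have hUprime : ∀ p ∈ U, p.Prime := fun p hp => (mem_Pr.mp (hUP hp)).2
  -- the parameters
  set g : ℝ := Real.log (2 ^ j / θ) with hg
  have hexpg : Real.exp (-g) = θ / 2 ^ j := by
    rw [hg, ← Real.log_inv, Real.exp_log (by positivity), inv_div]
  rw [← hexpg] at hlogrs
  have hgeq : g = j * Real.log 2 - Real.log θ := by
    rw [hg, Real.log_div (by positivity) hθ0.ne', Real.log_pow]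
  have hlogθ : Real.log θ ≤ Real.log (2 * (y : ℝ)) := Real.log_le_log hθ0 hθup.le
  have hglow : (Real.log 2 - ε) * Y ≤ g := by
    rw [hgeq, hjk]
    have h1 : (1 - ε / 4) * Y * Real.log 2 ≤ k * Real.log 2 := by gcongr
    have h2 : ((m : ℝ) + 2) * Real.log 2 ≤ (m : ℝ) + 2 := by
      have : (0 : ℝ) ≤ (m : ℝ) + 2 := by positivity
      nlinarith
    have h3 : (Real.log 2 - ε) * Y ≤ (1 - ε / 4) * Y * Real.log 2 - ε / 2 * Y := by
      have : 0 ≤ (ε / 2 - ε / 4 * Real.log 2) * Y := by
        apply mul_nonneg _ hY0.le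
        nlinarith
      nlinarith
    nlinarith
  have hθ1 : 0 ≤ Real.log θ := by
    apply Real.log_nonneg
    have : (2 : ℝ) ≤ y := by
      have h1 : (2 : ℝ) * l < y := by
        rw [hY, lt_div_iff₀ hl0] at hY2
        exact hY2
      linarith
    linarith
  have hgup : g ≤ 2 * Y := by
    rw [hgeq, hjk]
    have h1 : (k : ℝ) * Real.log 2 ≤ (1 + ε / 4) * Y * Real.log 2 := by gcongr
    have h2 : (0 : ℝ) ≤ ((m : ℝ) + 2) * Real.log 2 := by positivity
    have h3 : (1 + ε / 4) * Y * Real.log 2 ≤ 2 * Y * 1 := by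
      gcongr
      · linarith
      · linarith
    nlinarith
  have hg0 : 0 ≤ g := le_trans (mul_nonneg (by linarith) hY0.le) hglow
  have hghalf : (1 / 2) * Y ≤ g := by
    refine le_trans ?_ hglow
    apply mul_le_mul_of_nonneg_right _ hY0.le
    linarith
  set D : ℝ := ∑ p ∈ U, Real.log (p : ℝ) with hD
  have hgood : Y ≤ D := by
    -- `D ≥ 2 g - exp (-g)`
    have hr : 0 < r := by omega
    have hrR : (0 : ℝ) < r := by exact_mod_cast hr
    have hsR : (0 : ℝ) < s := by exact_mod_cast hs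
    have hDrs : D = Real.log r + Real.log s := by
      rw [← Real.log_mul hrR.ne' hsR.ne']
      have h1 : ((r : ℝ) * s) = ((∏ p ∈ U, p : ℕ) : ℝ) := by rw [← hrs]; push_cast; ring
      rw [h1, hD]
      push_cast
      exact (Real.log_prod fun p hp => by
        have := (hUprime p hp).pos
        positivity).symm
    have h1 : Real.log ((s : ℝ) / r) ≤ (s : ℝ) / r - 1 :=
      Real.log_le_sub_one_of_pos (by positivity)
    rw [Real.log_div hsR.ne' hrR.ne'] at h1
    have h2 : (1 : ℝ) ≤ (r : ℝ) - s := by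
      have : s + 1 ≤ r := hsr
      have : ((s : ℝ) + 1) ≤ r := by exact_mod_cast this
      linarith
    have h3 : (1 : ℝ) ≤ r * Real.exp (-g) := by
      have h4 : 1 - (s : ℝ) / r ≤ Real.exp (-g) := by linarith
      calc (1 : ℝ) ≤ (r : ℝ) - s := h2
        _ = r * (1 - (s : ℝ) / r) := by field_simp
        _ ≤ r * Real.exp (-g) := by gcongr
    have h5 : g ≤ Real.log r := by
      have h6 := Real.log_le_log one_pos h3
      rw [Real.log_one, Real.log_mul hrR.ne' (Real.exp_pos _).ne', Real.log_exp] at h6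
      linarith
    have h7 : Real.exp (-g) ≤ 1 := Real.exp_le_one_iff.mpr (by linarith)
    -- `g ≥ (log 2 - ε) Y ≥ 0.56 Y`
    have h8 : 0.568 * Y ≤ g := by
      refine le_trans ?_ hglow
      apply mul_le_mul_of_nonneg_right _ hY0.le
      linarith
    have h9 : Real.log s ≥ Real.log r - 1 := by linarith
    rw [hDrs]
    linarith
  have hcard : (U.card : ℝ) ≤ (1 + ε) * (D / l) := hcb U hUP hgood
  have hD1 : 1 ≤ D := by linarith
  have hcardD : (U.card : ℝ) ≤ D := by
    refine hcard.trans ?_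
    rw [← mul_div_assoc, div_le_iff₀ hl0]
    have hD0 : 0 < D := by linarith
    nlinarith
  obtain ⟨hDL, hLD, hgL, hH0, hest⟩ := estimate hUprime hs hsr hrs hD hlogrs hg0 hcardD hD1
  have hDu : D ≤ (U.card : ℝ) * l := by
    rw [hD, ← nsmul_eq_mul]
    refine Finset.sum_le_card_nsmul _ _ _ fun p hp => ?_
    have h1 := mem_Pr.mp (hUP hp)
    exact Real.log_le_log (by exact_mod_cast h1.2.pos) (by exact_mod_cast h1.1)
  -- the weight
  have hw : (U.card : ℝ) * Real.log 4 - (Real.log 2 - 3 / 8 + ε) * Y ≤ (U.card : ℝ) * l - D := by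
    have hnR : (2 : ℝ) ≤ S.card := by exact_mod_cast hS2
    have hn1 : (2 : ℝ) ^ m ≤ (S.card : ℝ) - 1 := by
      have : 2 ^ m + 1 ≤ S.card := hScard
      have : ((2 : ℝ) ^ m + 1) ≤ S.card := by exact_mod_cast this
      linarith
    have h1 : ∑ p ∈ U, wt y p ≤ (1 / 2) * (1 + (1 / 2) ^ m) * ∑ p ∈ Pr y, wt y p := by
      have hW0 : 0 ≤ ∑ p ∈ Pr y, wt y p := Finset.sum_nonneg fun p _ => wt_nonneg y p
      have hn0 : (0 : ℝ) < (S.card : ℝ) - 1 := by linarith
      have h2 : (S.card : ℝ) ≤ (1 + (1 / 2) ^ m) * ((S.card : ℝ) - 1) := by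
        have h3 : (1 : ℝ) ≤ (1 / 2) ^ m * ((S.card : ℝ) - 1) := by
          calc (1 : ℝ) = (1 / 2) ^ m * 2 ^ m := by
                rw [← mul_pow]; norm_num
            _ ≤ (1 / 2) ^ m * ((S.card : ℝ) - 1) := by gcongr
        linarith
      have h4 : (∑ p ∈ U, wt y p) * (2 * ((S.card : ℝ) - 1)) ≤
          ((1 / 2) * (1 + (1 / 2) ^ m) * ∑ p ∈ Pr y, wt y p) * (2 * ((S.card : ℝ) - 1)) := by
        calc (∑ p ∈ U, wt y p) * (2 * ((S.card : ℝ) - 1)) ≤
            (∑ p ∈ Pr y, wt y p) * (S.card : ℝ) := hsym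
          _ ≤ (∑ p ∈ Pr y, wt y p) * ((1 + (1 / 2) ^ m) * ((S.card : ℝ) - 1)) := by gcongr
          _ = _ := by ring
      exact le_of_mul_le_mul_right h4 (by linarith)
    have h2 : ∑ p ∈ U, (Real.log 4 + Real.log (p : ℝ) - l) ≤ ∑ p ∈ U, wt y p :=
      Finset.sum_le_sum fun p _ => le_max_right _ _
    rw [Finset.sum_sub_distrib, Finset.sum_add_distrib, Finset.sum_const, Finset.sum_const,
      nsmul_eq_mul, nsmul_eq_mul, ← hD] at h2
    have h3 : (1 / 2) * (1 + (1 / 2) ^ m) * ∑ p ∈ Pr y, wt y p ≤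
        (1 / 2) * (1 + ε / 4) * ((2 * Real.log 2 - 3 / 4 + ε / 2) * Y) := by
      have hW0 : 0 ≤ ∑ p ∈ Pr y, wt y p := Finset.sum_nonneg fun p _ => wt_nonneg y p
      have hc : (1 / 2) * (1 + (1 / 2 : ℝ) ^ m) ≤ (1 / 2) * (1 + ε / 4) := by linarith
      exact mul_le_mul hc hwt hW0 (by linarith)
    have h4 : (1 / 2) * (1 + ε / 4) * ((2 * Real.log 2 - 3 / 4 + ε / 2) * Y) ≤
        (Real.log 2 - 3 / 8 + ε) * Y := by
      have h5 : (1 / 2) * (1 + ε / 4) * (2 * Real.log 2 - 3 / 4 + ε / 2) ≤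
          Real.log 2 - 3 / 8 + ε := by nlinarith
      calc (1 / 2) * (1 + ε / 4) * ((2 * Real.log 2 - 3 / 4 + ε / 2) * Y) =
          ((1 / 2) * (1 + ε / 4) * (2 * Real.log 2 - 3 / 4 + ε / 2)) * Y := by ring
        _ ≤ _ := by gcongr
    linarith
  have hfin := hcy (U.card : ℝ) D (Real.log r) g hDu hcard hglow hgup hgL hDL hLD hw
  refine ⟨r, s, hs, hsr, hcop, ?_, hH0, lt_of_lt_of_le hfin hest⟩
  linarith

/-- **A larger constant.** For every `K < 2 + 4 log (3/2) = 3.6218…` and every `X` there is an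
admissible triple with `c > X` and `c > H exp (K log H / log log H)` where
`H = max (H(abc), e ^ e)`. -/
theorem result (K : ℝ) (hK : K < 2 + 4 * Real.log (3 / 2)) (X : ℝ) :
    ∃ a b c : ℕ, 0 < a ∧ 0 < b ∧ a + b = c ∧ Nat.Coprime a b ∧ X < c ∧
      H' (a * b * c) * Real.exp (K * Real.log (H' (a * b * c)) /
        Real.log (Real.log (H' (a * b * c)))) < c := by
  set K' : ℝ := max K 0 with hK'
  have hK'0 : 0 ≤ K' := le_max_right _ _
  have hKK' : K ≤ K' := le_max_left _ _
  have hl32 : 0 < Real.log (3 / 2 : ℝ) := Real.log_pos (by norm_num)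
  have hK'1 : K' < 2 + 4 * Real.log (3 / 2) := max_lt hK (by linarith)
  have he0 : 0 < Real.exp 1 := Real.exp_pos 1
  set B : ℝ := Real.exp 1 + K' * Real.exp 1 + |Real.log (max X 1)| with hB
  have hKe : 0 ≤ K' * Real.exp 1 := by positivity
  have habs : 0 ≤ |Real.log (max X 1)| := abs_nonneg _
  obtain ⟨r, s, hs, hsr, hcop, hrB, hH0, hgain⟩ := sets hK'1 B
  have hr : 0 < r := by omega
  have hrR : (0 : ℝ) < r := by exact_mod_cast hr
  set L : ℝ := Real.log r with hL
  have hcL : (r : ℝ) = Real.exp L := by rw [hL, Real.exp_log hrR]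
  have hLe : Real.exp 1 < L := by linarith
  have hL0 : 0 < L := by linarith
  have hlogL1 : 1 < Real.log L := by
    have := Real.log_lt_log he0 hLe
    rwa [Real.log_exp] at this
  refine ⟨r - s, s, r, by omega, hs, by omega, ?_, ?_, ?_⟩
  · rw [Nat.coprime_sub_self_left hsr.le]
    exact hcop
  · have hX1 : 0 < max X 1 := lt_of_lt_of_le one_pos (le_max_right _ _)
    have h3 : Real.log (max X 1) < L := by
      refine lt_of_le_of_lt (le_abs_self _) ?_
      linarith
    calc X ≤ max X 1 := le_max_left _ _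
      _ = Real.exp (Real.log (max X 1)) := (Real.exp_log hX1).symm
      _ < Real.exp L := Real.exp_lt_exp.mpr h3
      _ = (r : ℝ) := hcL.symm
  · have hE : Real.log (Real.exp (Real.exp 1)) = Real.exp 1 := Real.log_exp _
    set h : ℝ := H' ((r - s) * s * r) with hh
    have hhE : Real.exp (Real.exp 1) ≤ h := le_max_right _ _
    have hh0 : 0 < h := lt_of_lt_of_le (Real.exp_pos _) hhE
    have hlh : Real.exp 1 ≤ Real.log h := by
      rw [← hE]
      exact Real.log_le_log (Real.exp_pos _) hhE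
    have hlh0 : 0 < Real.log h := by linarith
    have hllh : 1 ≤ Real.log (Real.log h) := by
      have := Real.log_le_log he0 hlh
      rwa [Real.log_exp] at this
    -- it is enough to bound with `K'`
    have hmain : Real.log h + K' * Real.log h / Real.log (Real.log h) < L := by
      rcases le_total (H ((r - s) * s * r)) (Real.exp (Real.exp 1)) with hcase | hcase
      · have h3 : h = Real.exp (Real.exp 1) := max_eq_right hcase
        rw [h3, hE, Real.log_exp, div_one]
        linarith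
      · have h3 : h = H ((r - s) * s * r) := max_eq_left hcase
        rw [← h3] at hgain
        have hfrac0 : 0 ≤ K' * (L / Real.log L) := by positivity
        have hlhL : Real.log h ≤ L := by linarith
        -- monotonicity of `x / log x`
        have h5 : Real.log h / Real.log (Real.log h) ≤ L / Real.log L := by
          have h6 := Real.log_div_self_antitoneOn (a := Real.log h)
            (b := L) hlh (hlh.trans hlhL) hlhL
          simp only at h6
          rw [div_le_div_iff₀ (by linarith) (by linarith)]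
          rw [div_le_div_iff₀ hL0 hlh0] at h6
          linarith
        have h8 := mul_le_mul_of_nonneg_left h5 hK'0
        have h9 : K' * Real.log h / Real.log (Real.log h) =
            K' * (Real.log h / Real.log (Real.log h)) := by ring
        rw [h9]
        linarith
    have h10 : K * Real.log h / Real.log (Real.log h) ≤
        K' * Real.log h / Real.log (Real.log h) := by
      gcongr
    calc h * Real.exp (K * Real.log h / Real.log (Real.log h))
        = Real.exp (Real.log h + K * Real.log h / Real.log (Real.log h)) := by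
          rw [Real.exp_add, Real.exp_log hh0]
      _ < Real.exp L := by
          apply Real.exp_lt_exp.mpr
          linarith
      _ = (r : ℝ) := hcL.symm

end Pool.Agent.Results.MP_14cf73_nt.SubsetSums
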